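import Pool.Agent.KS6_21.LCy.Sub
import Pool.Graph.R_pool_sql_team_seeded_47a924f7.Results.MP_7b0c7a_co.LongestCycleArticulation

/-!
# The subdivided Petersen graphs
-/

set_option autoImplicit false

open SimpleGraph Pool.Agent.Results.MP_7b0c7a_co.LongestCycleArticulation
open Pool.Agent.T6.H92.LC.Petersen

namespace KS6_21.LCy

/-- A 2-connected graph on `10 + t` vertices whose cycles have length at most `9 + t`, with two
paths from `a` to `b` missing only `u`, only `v`. -/
structure Stage (t : ℕ) (V : Type) [Fintype V] where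
  G : SimpleGraph V
  a : V
  b : V
  u : V
  v : V
  p : G.Walk a b
  q : G.Walk a b
  card : Fintype.card V = 10 + t
  hab : G.Adj a b
  huv : G.Adj u v
  hp : p.IsPath
  hq : q.IsPath
  hpe : s(a, b) ∉ p.edges
  hqe : s(a, b) ∉ q.edges
  hps : ∀ x, x ∈ p.support ↔ x ≠ u
  hqs : ∀ x, x ∈ q.support ↔ x ≠ v
  hcy : ∀ (w : V) (Z : G.Walk w w), Z.IsCycle → Z.length ≤ 9 + t
  hav : ∀ x y z : V, y ≠ x → z ≠ x → Av G x y z
  hco : ∀ y z : V, G.Reachable y z

/-- Next stage. -/
theorem next {t : ℕ} {V : Type} [Fintype V] (S : Stage t V) : Nonempty (Stage (t + 1) (Option V)) := by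
  classical
  obtain ⟨p', hp'⟩ := up S.p S.hpe
  obtain ⟨q', hq'⟩ := up S.q S.hqe
  have hne : S.a ≠ S.b := S.hab.ne
  have hE : ∀ (r : (sub S.G S.a S.b).Walk (some S.a) (some S.b)), none ∉ r.support →
      s(none, some S.b) ∉ (Walk.cons (adj_none.2 (Or.inl rfl)) r).edges := by
    intro r hr h
    rw [Walk.edges_cons, List.mem_cons] at h
    rcases h with h | h
    · rcases Sym2.eq_iff.1 h with ⟨_, h2⟩ | ⟨h1, _⟩
      · exact hne (Option.some.inj h2).symm
      · cases h1
    · exact hr (Walk.fst_mem_support_of_mem_edges _ h)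
  have np : none ∉ p'.support := by rw [hp']; simp
  have nq : none ∉ q'.support := by rw [hq']; simp
  have sup : ∀ (r : (sub S.G S.a S.b).Walk (some S.a) (some S.b)) (l : List V) (c : V),
      r.support = l.map some → (∀ x, x ∈ l ↔ x ≠ c) →
      ∀ x, x ∈ (Walk.cons (adj_none.2 (Or.inl rfl)) r : (sub S.G S.a S.b).Walk none _).support ↔
        x ≠ some c := by
    intro r l c hr hl x
    rw [Walk.support_cons, List.mem_cons, hr]
    cases x with
    | none => simp
    | some x0 => simp [hl]
  have pth : ∀ (r : (sub S.G S.a S.b).Walk (some S.a) (some S.b)) (l : List V),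
      r.support = l.map some → l.Nodup →
      (Walk.cons (adj_none.2 (Or.inl rfl)) r : (sub S.G S.a S.b).Walk none _).IsPath := by
    intro r l hr hl
    rw [Walk.isPath_def, Walk.support_cons, hr, List.nodup_cons]
    exact ⟨by simp, hl.map (Option.some_injective V)⟩
  have hcon : ∀ y z : Option V, (sub S.G S.a S.b).Reachable y z := by
    have h1 : ∀ x y z : Option V, y ≠ x → z ≠ x → Av (sub S.G S.a S.b) x y z :=
      av_sub hne S.p S.hpe S.hav S.hco
    have hcard : 2 < Fintype.card (Option V) := by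
      rw [Fintype.card_option, S.card]
      omega
    intro y z
    obtain ⟨x, hx1, hx2⟩ : ∃ x, x ≠ y ∧ x ≠ z := by
      by_contra hc
      push Not at hc
      have : (Finset.univ : Finset (Option V)) ⊆ {y, z} := by
        intro x _
        by_cases h : x = y
        · simp [h]
        · simp [hc x h]
      have h2 := Finset.card_le_card this
      rw [Finset.card_univ] at h2
      have h3 := Finset.card_le_two (a := y) (b := z)
      omega
    obtain ⟨w, _⟩ := h1 x y z hx1.symm hx2.symm
    exact ⟨w⟩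
  exact ⟨{
    G := sub S.G S.a S.b
    a := none
    b := some S.b
    u := some S.u
    v := some S.v
    p := .cons (adj_none.2 (Or.inl rfl)) p'
    q := .cons (adj_none.2 (Or.inl rfl)) q'
    card := by rw [Fintype.card_option, S.card]; ring
    hab := adj_none.2 (Or.inr rfl)
    huv := by
      rw [adj_some]
      refine ⟨S.huv, fun h => ?_⟩
      have ha : S.a ≠ S.u := (S.hps S.a).1 S.p.start_mem_support
      have hb : S.b ≠ S.u := (S.hps S.b).1 S.p.end_mem_support
      rcases Sym2.eq_iff.1 h with ⟨h1, _⟩ | ⟨h1, _⟩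
      · exact ha h1.symm
      · exact hb h1.symm
    hp := pth p' _ hp' ((Walk.isPath_def _).1 S.hp)
    hq := pth q' _ hq' ((Walk.isPath_def _).1 S.hq)
    hpe := hE p' np
    hqe := hE q' nq
    hps := sup p' _ _ hp' S.hps
    hqs := sup q' _ _ hq' S.hqs
    hcy := fun w Z hZ => by
      have := cycle_le S.hab S.hcy Z hZ
      omega
    hav := av_sub hne S.p S.hpe S.hav S.hco
    hco := hcon }⟩

/-- The path missing `0`. -/
def pp : pet.Walk 7 2 :=
  .cons (show pet.Adj 7 5 by decide) (.cons (show pet.Adj 5 8 by decide)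
    (.cons (show pet.Adj 8 3 by decide) (.cons (show pet.Adj 3 4 by decide)
    (.cons (show pet.Adj 4 9 by decide) (.cons (show pet.Adj 9 6 by decide)
    (.cons (show pet.Adj 6 1 by decide) (.cons (show pet.Adj 1 2 by decide) .nil)))))))

/-- The path missing `1`. -/
def qq : pet.Walk 7 2 :=
  .cons (show pet.Adj 7 5 by decide) (.cons (show pet.Adj 5 0 by decide)
    (.cons (show pet.Adj 0 4 by decide) (.cons (show pet.Adj 4 9 by decide)
    (.cons (show pet.Adj 9 6 by decide) (.cons (show pet.Adj 6 8 by decide)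
    (.cons (show pet.Adj 8 3 by decide) (.cons (show pet.Adj 3 2 by decide) .nil)))))))

theorem base : Nonempty (Stage 0 (Fin 10)) := by
  classical
  have hco : ∀ y z : Fin 10, pet.Reachable y z := by
    intro y z
    obtain ⟨w⟩ := pet_conn ∅ 0 0 (by simp) ⟨y, by simp⟩ ⟨z, by simp⟩
    exact ⟨w.map (SimpleGraph.Embedding.induce _).toHom⟩
  have hav : ∀ x y z : Fin 10, y ≠ x → z ≠ x → Av pet x y z := by
    intro x y z hy hz
    obtain ⟨w⟩ := pet_conn {x} x x (by simp) ⟨y, by simpa using hy⟩ ⟨z, by simpa using hz⟩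
    refine ⟨w.map (SimpleGraph.Embedding.induce _).toHom, fun h => ?_⟩
    have h' : x ∈ (w.map (SimpleGraph.Embedding.induce _).toHom).support := h
    rw [Walk.support_map, List.mem_map] at h'
    obtain ⟨⟨r, hr⟩, _, h2⟩ := h'
    have h3 : r = x := h2
    subst h3
    simp at hr
  exact ⟨{
    G := pet
    a := 7
    b := 2
    u := 0
    v := 1
    p := pp
    q := qq
    card := by simp
    hab := by decide
    huv := by decide
    hp := by rw [Walk.isPath_def]; decide
    hq := by rw [Walk.isPath_def]; decide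
    hpe := by decide
    hqe := by decide
    hps := by decide
    hqs := by decide
    hcy := fun w Z hZ => by
      have := pet_cycle_le Z hZ
      omega
    hav := hav
    hco := hco }⟩

theorem all (t : ℕ) : ∃ (V : Type) (_ : Fintype V), Nonempty (Stage t V) := by
  induction t with
  | zero => exact ⟨Fin 10, inferInstance, base⟩
  | succ t ih =>
    obtain ⟨V, _, ⟨S⟩⟩ := ih
    exact ⟨Option V, inferInstance, next S⟩

theorem len_of {V : Type} [Fintype V] [DecidableEq V] {G : SimpleGraph V} {a b u : V}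
    (p : G.Walk a b) (hp : p.IsPath) (hs : ∀ x, x ∈ p.support ↔ x ≠ u) :
    p.length + 2 = Fintype.card V := by
  have h1 : p.support.toFinset = Finset.univ.erase u := by
    ext x
    simp [hs]
  have h2 := List.toFinset_card_of_nodup ((Walk.isPath_def _).1 hp)
  rw [h1, Finset.card_erase_of_mem (Finset.mem_univ _), Finset.card_univ,
    Walk.length_support] at h2
  have : 0 < Fintype.card V := Fintype.card_pos_iff.2 ⟨u⟩
  omega

theorem fails (t : ℕ) : ¬ AP 2 (8 + t) := by
  classical
  intro h
  obtain ⟨V, _, ⟨S⟩⟩ := all t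
  have hlp := len_of S.p S.hp S.hps
  have hlq := len_of S.q S.hq S.hqs
  have hcard := S.card
  let C : S.G.Walk S.b S.b := .cons S.hab.symm S.p
  let D : S.G.Walk S.b S.b := .cons S.hab.symm S.q
  have hC : C.IsCycle := by
    rw [Walk.cons_isCycle_iff]
    exact ⟨S.hp, by rw [Sym2.eq_swap]; exact S.hpe⟩
  have hD : D.IsCycle := by
    rw [Walk.cons_isCycle_iff]
    exact ⟨S.hq, by rw [Sym2.eq_swap]; exact S.hqe⟩
  have lC : C.length = 9 + t := by
    change S.p.length + 1 = _
    omega
  have lD : D.length = 9 + t := by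
    change S.q.length + 1 = _
    omega
  have mC : ∀ x, x ∈ C.support ↔ x ≠ S.u := by
    intro x
    change x ∈ S.b :: S.p.support ↔ _
    rw [List.mem_cons, ← S.hps x]
    exact ⟨fun h => h.elim (fun h => h ▸ S.p.end_mem_support) id, Or.inr⟩
  have mD : ∀ x, x ∈ D.support ↔ x ≠ S.v := by
    intro x
    change x ∈ S.b :: S.q.support ↔ _
    rw [List.mem_cons, ← S.hqs x]
    exact ⟨fun h => h.elim (fun h => h ▸ S.q.end_mem_support) id, Or.inr⟩
  have hcom : common C D = (({S.u, S.v} : Finset V)ᶜ : Finset V) := by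
    ext x
    change (x ∈ C.support ∧ x ∈ D.support) ↔ _
    rw [mC, mD]
    simp
    tauto
  have hK : KConnected 2 S.G := by
    refine ⟨by omega, fun T hT => ?_⟩
    rintro ⟨y, hy⟩ ⟨z, hz⟩
    rcases Nat.eq_zero_or_pos T.card with h0 | h0
    · obtain ⟨w⟩ := S.hco y z
      exact ⟨w.induce _ (fun x _ => by
        rw [Finset.card_eq_zero.1 h0]
        simp)⟩
    · obtain ⟨x, hx⟩ := Finset.card_eq_one.1 (by omega : T.card = 1)
      subst hx
      have hy' : y ≠ x := by simpa using hy
      have hz' : z ≠ x := by simpa using hz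
      obtain ⟨w, hw⟩ := S.hav x y z hy' hz'
      exact ⟨w.induce _ (fun r hr => by
        have : r ≠ x := fun h => hw (h ▸ hr)
        simpa using this)⟩
  have hH : ¬ S.G.IsHamiltonian := by
    intro hH
    obtain ⟨a, p, hp⟩ := hH (by omega)
    have h1 := S.hcy _ p hp.isCycle
    have h2 := hp.length_eq
    omega
  have hA := h V S.G hK hH S.b S.b C D
    ⟨hC, fun w Z hZ => by rw [lC]; exact S.hcy _ Z hZ⟩
    ⟨hD, fun w Z hZ => by rw [lD]; exact S.hcy _ Z hZ⟩
    (by omega) (by
      rw [hcom, Set.ncard_coe_finset, Finset.card_compl, Finset.card_pair S.huv.ne]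
      omega)
  apply hA
  rw [hcom]
  rintro ⟨x, hx⟩ ⟨y, hy⟩
  have hx' : x = S.u ∨ x = S.v := by
    have h1 : ¬ x = S.v → x = S.u := by simpa using hx
    tauto
  have hy' : y = S.u ∨ y = S.v := by
    have h1 : ¬ y = S.v → y = S.u := by simpa using hy
    tauto
  rcases hx' with rfl | rfl <;> rcases hy' with rfl | rfl
  · exact SimpleGraph.Reachable.refl _
  · exact SimpleGraph.Adj.reachable S.huv
  · exact SimpleGraph.Adj.reachable S.huv.symm
  · exact SimpleGraph.Reachable.refl _

end KS6_21.LCy
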