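import Mathlib

/-!
# Subdividing an edge
-/

set_option autoImplicit false

open SimpleGraph

namespace KS6_21.LCy

/-- Subdivide the edge `a b` once; the new vertex is `none`. -/
def sub {V : Type} (G : SimpleGraph V) (a b : V) : SimpleGraph (Option V) where
  Adj x y := (∃ s t, x = some s ∧ y = some t ∧ G.Adj s t ∧ s(s, t) ≠ s(a, b)) ∨
    (x = none ∧ (y = some a ∨ y = some b)) ∨ (y = none ∧ (x = some a ∨ x = some b))
  symm := ⟨by
    rintro x y (⟨s, t, h1, h2, h3, h4⟩ | h | h)
    · exact Or.inl ⟨t, s, h2, h1, h3.symm, by rwa [Sym2.eq_swap]⟩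
    · exact Or.inr (Or.inr h)
    · exact Or.inr (Or.inl h)⟩
  loopless := ⟨by
    rintro x (⟨s, t, h1, h2, h3, h4⟩ | ⟨h1, h2⟩ | ⟨h1, h2⟩)
    · rw [h1] at h2
      exact h3.ne (Option.some.inj h2)
    · subst h1
      rcases h2 with h | h <;> cases h
    · subst h1
      rcases h2 with h | h <;> cases h⟩

variable {V : Type} {G : SimpleGraph V} {a b : V}

theorem adj_some {s t : V} : (sub G a b).Adj (some s) (some t) ↔ G.Adj s t ∧ s(s, t) ≠ s(a, b) := by
  constructor
  · rintro (⟨s', t', h1, h2, h3, h4⟩ | ⟨h1, _⟩ | ⟨h1, _⟩)
    · cases h1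
      cases h2
      exact ⟨h3, h4⟩
    · cases h1
    · cases h1
  · rintro ⟨h3, h4⟩
    exact Or.inl ⟨s, t, rfl, rfl, h3, h4⟩

theorem adj_none {y : Option V} : (sub G a b).Adj none y ↔ y = some a ∨ y = some b := by
  constructor
  · rintro (⟨s', t', h1, h2, h3, h4⟩ | ⟨h1, h2⟩ | ⟨h1, h2⟩)
    · cases h1
    · exact h2
    · rcases h2 with h | h <;> cases h
  · intro h
    exact Or.inr (Or.inl ⟨rfl, h⟩)

/-- Lift a walk avoiding the edge. -/
theorem up {s t : V} (w : G.Walk s t) (hw : s(a, b) ∉ w.edges) :
    ∃ w' : (sub G a b).Walk (some s) (some t), w'.support = w.support.map some := by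
  induction w with
  | nil => exact ⟨.nil, rfl⟩
  | cons h p ih =>
    rw [Walk.edges_cons, List.mem_cons, not_or] at hw
    obtain ⟨w', hw'⟩ := ih hw.2
    exact ⟨.cons (adj_some.2 ⟨h, fun e => hw.1 e.symm⟩) w', by simp [hw']⟩

/-- The inclusion. -/
def inc (G : SimpleGraph V) (a b : V) : (G.deleteEdges {s(a, b)}) →g sub G a b where
  toFun := some
  map_rel' := by
    intro s t h
    rw [deleteEdges_adj] at h
    exact adj_some.2 ⟨h.1, fun e => h.2 (by simpa using e)⟩

/-- Bring down a walk avoiding the new vertex. -/
theorem down {x y : Option V} (w : (sub G a b).Walk x y) (hw : none ∉ w.support) :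
    ∀ s t (hx : x = some s) (hy : y = some t), ∃ w' : (G.deleteEdges {s(a, b)}).Walk s t,
      w'.map (inc G a b) = w.copy hx hy := by
  induction w with
  | nil =>
    intro s t hx hy
    subst hx
    cases hy
    exact ⟨.nil, rfl⟩
  | @cons x z y h p ih =>
    intro s t hx hy
    rw [Walk.support_cons, List.mem_cons, not_or] at hw
    cases z with
    | none => exact absurd p.start_mem_support hw.2
    | some r =>
      subst hx
      subst hy
      obtain ⟨w', hw'⟩ := ih hw.2 r t rfl rfl
      have h2 := adj_some.1 h
      have h3 : (G.deleteEdges {s(a, b)}).Adj s r := by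
        rw [deleteEdges_adj]
        exact ⟨h2.1, by simpa using h2.2⟩
      refine ⟨.cons h3 w', ?_⟩
      rw [Walk.map_cons, hw']
      rfl

theorem inc_inj : Function.Injective (inc G a b) := fun _ _ h => Option.some.inj h

/-- Cycles get longer by at most one. -/
theorem cycle_le {N : ℕ} (hab : G.Adj a b)
    (hN : ∀ (w : V) (Z : G.Walk w w), Z.IsCycle → Z.length ≤ N) {z : Option V}
    (Z : (sub G a b).Walk z z) (hZ : Z.IsCycle) : Z.length ≤ N + 1 := by
  classical
  have hle : G.deleteEdges {s(a, b)} ≤ G := deleteEdges_le _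
  by_cases hn : none ∈ Z.support
  · have hZ' := hZ.rotate hn
    have hlen : (Z.rotate none hn).length = Z.length := Walk.length_rotate ..
    rw [← hlen]
    generalize hW : Z.rotate none hn = W at hZ' ⊢
    clear hW hlen hZ hn Z
    cases W with
    | nil => exact absurd hZ' (by simp)
    | @cons _ y _ h1 q =>
      rw [Walk.cons_isCycle_iff] at hZ'
      obtain ⟨hq, hqe⟩ := hZ'
      have hr := hq.reverse
      have hre : s(none, y) ∉ q.reverse.edges := by
        rw [Walk.edges_reverse, List.mem_reverse]
        exact hqe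
      have hlen : q.reverse.length = q.length := Walk.length_reverse q
      rw [Walk.length_cons, ← hlen]
      generalize q.reverse = r at hr hre
      cases r with
      | nil => exact absurd h1 (by simp)
      | @cons _ y2 _ h2 r =>
        rw [Walk.cons_isPath_iff] at hr
        have hy2 : y2 ≠ y := by
          rintro rfl
          apply hre
          rw [Walk.edges_cons]
          exact List.mem_cons_self
        have e1 := adj_none.1 h1
        have e2 := adj_none.1 h2
        rw [Walk.length_cons]
        have fin : ∀ c d : V, G.Adj c d → s(c, d) = s(a, b) → y2 = some c → y = some d →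
            r.length + 1 ≤ N := by
          rintro c d hcd he rfl rfl
          obtain ⟨w', hw'⟩ := down r hr.2 c d rfl rfl
          have hp : (w'.map (inc G a b)).IsPath := by
            rw [hw']
            exact hr.1
          rw [Walk.isPath_map_iff_of_injective inc_inj] at hp
          have hl : w'.length = r.length := by
            rw [← Walk.length_map (inc G a b) w', hw']
            rfl
          have hp2 : (w'.mapLe hle).IsPath := hp.mapLe hle
          have hcyc : (Walk.cons hcd.symm (w'.mapLe hle)).IsCycle := by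
            rw [Walk.cons_isCycle_iff]
            refine ⟨hp2, fun hmem => ?_⟩
            rw [Walk.edges_mapLe_eq_edges] at hmem
            have h3 := Walk.edges_subset_edgeSet _ hmem
            rw [edgeSet_deleteEdges] at h3
            apply h3.2
            have he2 : s(d, c) = s(a, b) := Sym2.eq_swap.trans he
            rw [he2]
            exact Set.mem_singleton _
          have h4 := hN _ _ hcyc
          rw [Walk.length_cons, Walk.length_mapLe, hl] at h4
          exact h4
        rcases e1 with h3 | h3 <;> rcases e2 with h4 | h4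
        · exact absurd (h4.trans h3.symm) hy2
        · have := fin b a hab.symm Sym2.eq_swap h4 h3
          omega
        · have := fin a b hab rfl h4 h3
          omega
        · exact absurd (h4.trans h3.symm) hy2
  · cases z with
    | none => exact absurd Z.start_mem_support hn
    | some s =>
      obtain ⟨w', hw'⟩ := down Z hn s s rfl rfl
      have hp : (w'.map (inc G a b)).IsCycle := by
        rw [hw']
        exact hZ
      rw [Walk.isCycle_map_iff_of_injective inc_inj] at hp
      have hl : w'.length = Z.length := by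
        rw [← Walk.length_map (inc G a b) w', hw']
        rfl
      have h4 := hN _ _ (hp.mapLe hle)
      rw [Walk.length_mapLe, hl] at h4
      omega

/-- There is a walk from `y` to `z` avoiding `x`. -/
def Av {W : Type} (H : SimpleGraph W) (x y z : W) : Prop := ∃ w : H.Walk y z, x ∉ w.support

theorem Av.trans {W : Type} {H : SimpleGraph W} {x y z t : W} (h1 : Av H x y z)
    (h2 : Av H x z t) : Av H x y t := by
  obtain ⟨w1, h1⟩ := h1
  obtain ⟨w2, h2⟩ := h2
  refine ⟨w1.append w2, ?_⟩
  rw [Walk.mem_support_append_iff, not_or]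
  exact ⟨h1, h2⟩

theorem Av.symm {W : Type} {H : SimpleGraph W} {x y z : W} (h1 : Av H x y z) : Av H x z y := by
  obtain ⟨w1, h1⟩ := h1
  exact ⟨w1.reverse, by rwa [Walk.support_reverse, List.mem_reverse]⟩

theorem Av.one {W : Type} {H : SimpleGraph W} {x y z : W} (h : H.Adj y z) (h1 : y ≠ x)
    (h2 : z ≠ x) : Av H x y z := ⟨.cons h .nil, by simp [h1.symm, h2.symm]⟩

/-- The subdivided graph is 2-connected. -/
theorem av_sub (hne : a ≠ b) (p : G.Walk a b) (hp : s(a, b) ∉ p.edges)
    (hG : ∀ x y z : V, y ≠ x → z ≠ x → Av G x y z) (hG0 : ∀ y z : V, G.Reachable y z)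
    (x y z : Option V) (hy : y ≠ x) (hz : z ≠ x) : Av (sub G a b) x y z := by
  have hE : ∀ s t : V, G.Adj s t → some s ≠ x → some t ≠ x → Av (sub G a b) x (some s) (some t) := by
    intro s t hst hs ht
    by_cases he : s(s, t) = s(a, b)
    · have key : ∀ s t : V, s = a → t = b → some s ≠ x → some t ≠ x →
          Av (sub G a b) x (some s) (some t) := by
        rintro s t rfl rfl hs ht
        by_cases hx : x = none
        · subst hx
          obtain ⟨w', hw'⟩ := up p hp
          exact ⟨w', by rw [hw']; simp⟩
        · have h1 : Av (sub G s t) x none (some s) :=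
            Av.one (adj_none.2 (Or.inl rfl)) (Ne.symm hx) hs
          have h2 : Av (sub G s t) x none (some t) :=
            Av.one (adj_none.2 (Or.inr rfl)) (Ne.symm hx) ht
          exact h1.symm.trans h2
      rcases Sym2.eq_iff.1 he with ⟨h1, h2⟩ | ⟨h1, h2⟩
      · exact key s t h1 h2 hs ht
      · exact (key t s h2 h1 ht hs).symm
    · exact Av.one (adj_some.2 ⟨hst, he⟩) hs ht
  have hW : ∀ s t : V, ∀ w : G.Walk s t, (∀ r ∈ w.support, some r ≠ x) →
      Av (sub G a b) x (some s) (some t) := by
    intro s t w
    induction w with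
    | nil =>
      intro h
      exact ⟨.nil, by simpa using (h _ (by simp)).symm⟩
    | cons h q ih =>
      intro hh
      have h1 := hh _ (Walk.start_mem_support _)
      have h2 : ∀ r ∈ q.support, some r ≠ x := fun r hr => hh r (by simp [hr])
      exact (hE _ _ h h1 (h2 _ q.start_mem_support)).trans (ih h2)
  have hS : ∀ s t : V, some s ≠ x → some t ≠ x → Av (sub G a b) x (some s) (some t) := by
    intro s t hs ht
    cases x with
    | none =>
      obtain ⟨w⟩ := hG0 s t
      exact hW s t w fun r _ => by simp
    | some x0 =>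
      obtain ⟨w, hw⟩ := hG x0 s t (fun h => hs (by rw [h])) (fun h => ht (by rw [h]))
      exact hW s t w fun r hr h => hw (Option.some.inj h ▸ hr)
  have hT : ∀ y : Option V, y ≠ x → ∃ s : V, some s ≠ x ∧ Av (sub G a b) x y (some s) := by
    intro y hy
    cases y with
    | some s => exact ⟨s, hy, hS s s hy hy⟩
    | none =>
      by_cases ha : some a = x
      · have hb : some b ≠ x := fun h => hne (Option.some.inj (ha.trans h.symm))
        exact ⟨b, hb, Av.one (adj_none.2 (Or.inr rfl)) hy hb⟩
      · exact ⟨a, ha, Av.one (adj_none.2 (Or.inl rfl)) hy ha⟩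
  obtain ⟨s, hs, h1⟩ := hT y hy
  obtain ⟨t, ht, h2⟩ := hT z hz
  exact (h1.trans (hS s t hs ht)).trans h2.symm

end KS6_21.LCy
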